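import Pool.Agent.Helper64.BKA.Stmts

/-! # Module DEL: comparison of `Δ_K` and `Δ_F` -/

set_option autoImplicit false

open NumberField
open scoped Classical

namespace BKA

/-- the square of `δ` is a nonzero rational number -/
theorem delta_sq {K : Type} [Field K] [NumberField K] {δ : ℂ} (h : IsDelta K δ) :
    ∃ a : ℚ, a ≠ 0 ∧ δ ^ 2 = (a : ℂ) := by
  rcases h with ⟨D, hD, y, hy, rfl⟩ | ⟨-, rfl⟩
  · refine ⟨(Algebra.norm ℚ D) ^ (Module.finrank (maximalRealSubfield K) K / 2), ?_, ?_⟩
    · apply pow_ne_zero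
      rw [Ne, Algebra.norm_eq_zero_iff]
      rintro rfl
      obtain ⟨φ⟩ : Nonempty (K →+* ℂ) := inferInstance
      have := hD.1 φ
      simp at this
    · rw [← pow_mul, mul_comm, pow_mul, hy]
      push_cast
      rfl
  · exact ⟨1, one_ne_zero, by simp⟩

/-- a complex number with positive square is real -/
theorem star_of_sq {z : ℂ} {r : ℝ} (hr : 0 < r) (h : z ^ 2 = (r : ℂ)) : star z = z := by
  have h1 := congrArg Complex.re h
  have h2 := congrArg Complex.im h
  simp only [pow_two, Complex.mul_re, Complex.mul_im, Complex.ofReal_re, Complex.ofReal_im] at h1 h2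
  have h3 : z.re * z.im = 0 := by linarith
  rcases mul_eq_zero.1 h3 with h4 | h4
  · exfalso
    rw [h4] at h1
    nlinarith [mul_self_nonneg z.im]
  · apply Complex.ext
    · simp
    · simp [h4]

/-- the embedding of the maximal real subfields -/
noncomputable def emb (F K : Type) [Field F] [NumberField F] [Field K] [NumberField K]
    [Algebra F K] : maximalRealSubfield F →+* maximalRealSubfield K :=
  ((algebraMap F K).comp (maximalRealSubfield F).subtype).codRestrict (maximalRealSubfield K) (by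
    intro x φ
    have := x.2 (φ.comp (algebraMap F K))
    simpa using this)

theorem emb_coe (F K : Type) [Field F] [NumberField F] [Field K] [NumberField K]
    [Algebra F K] (x : maximalRealSubfield F) :
    ((emb F K x : maximalRealSubfield K) : K) = algebraMap F K x := rfl

theorem emb_cm (F K : Type) [Field F] [NumberField F] [Field K] [NumberField K]
    [Algebra F K] {D : maximalRealSubfield F} (h : IsCMElt F D) : IsCMElt K (emb F K D) := by
  refine ⟨fun φ => h.1 (φ.comp (algebraMap F K)), ?_⟩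
  obtain ⟨s, hs⟩ := h.2
  exact ⟨algebraMap F K s, by rw [emb_coe, hs, map_mul]⟩

theorem real_val {K : Type} [Field K] [NumberField K] (D : maximalRealSubfield K) (φ : K →+* ℂ) :
    φ D = ((φ D).re : ℂ) := by
  have := D.2 φ
  rw [Complex.star_def] at this
  exact (Complex.conj_eq_iff_re.1 this).symm

/-- two CM elements differ by a square -/
theorem cm_sq {K : Type} [Field K] [NumberField K] {D D' : maximalRealSubfield K}
    (h : IsCMElt K D) (h' : IsCMElt K D') :
    ∃ t : maximalRealSubfield K, D * D' = t ^ 2 := by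
  obtain ⟨s, hs⟩ := h.2
  obtain ⟨s', hs'⟩ := h'.2
  have hst : (s * s') ^ 2 = (D : K) * D' := by rw [hs, hs']; ring
  have hmem : s * s' ∈ maximalRealSubfield K := by
    intro φ
    apply star_of_sq (r := (φ D).re * (φ D').re) (mul_pos_of_neg_of_neg (h.1 φ) (h'.1 φ))
    rw [← map_pow, hst, map_mul, real_val D φ, real_val D' φ]
    simp
  exact ⟨⟨s * s', hmem⟩, Subtype.ext hst.symm⟩

/-- the degree over the maximal real subfield is even -/
theorem cm_even {K : Type} [Field K] [NumberField K] {D : maximalRealSubfield K}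
    (h : IsCMElt K D) : 2 ∣ Module.finrank (maximalRealSubfield K) K := by
  obtain ⟨s, hs⟩ := h.2
  have hir : Irreducible (Polynomial.X ^ 2 - Polynomial.C D) := by
    apply X_pow_sub_C_irreducible_of_prime Nat.prime_two
    intro b hb
    obtain ⟨φ⟩ : Nonempty (K →+* ℂ) := inferInstance
    have h1 := h.1 φ
    have h2 : φ D = φ b * φ b := by rw [← map_mul, ← hb, pow_two]; rfl
    rw [real_val b φ, ← Complex.ofReal_mul] at h2
    rw [h2, Complex.ofReal_re] at h1
    nlinarith [mul_self_nonneg (φ b).re]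
  have h0 : Polynomial.aeval s (Polynomial.X ^ 2 - Polynomial.C D) = 0 := by
    rw [map_sub, map_pow, Polynomial.aeval_X, Polynomial.aeval_C]
    change s ^ 2 - (D : K) = 0
    rw [hs]
    ring
  have h1 := minpoly.eq_of_irreducible_of_monic hir h0 (Polynomial.monic_X_pow_sub_C D two_ne_zero)
  have h2 : (minpoly (maximalRealSubfield K) s).natDegree ∣
      Module.finrank (maximalRealSubfield K) K :=
    minpoly.degree_dvd (Algebra.IsIntegral.isIntegral s)
  rwa [← h1, Polynomial.natDegree_X_pow_sub_C] at h2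

theorem st_DEL : ST_DEL := by
  intro F K _ _ _ _ _ δ δ' n _ hδ hδ' hn
  rcases hn with ⟨m, rfl⟩ | ⟨D, hD⟩
  · obtain ⟨a, ha, h⟩ := delta_sq hδ
    obtain ⟨b, hb, h'⟩ := delta_sq hδ'
    have ha' : (a : ℂ) ≠ 0 := by exact_mod_cast ha
    refine ⟨b ^ m / (a ^ m) ^ (Module.finrank F K), ?_, ?_⟩
    · exact div_ne_zero (pow_ne_zero _ hb) (pow_ne_zero _ (pow_ne_zero _ ha))
    · rw [← two_mul, pow_mul, pow_mul, h, h']
      push_cast
      field_simp
  · rcases hδ with ⟨D₁, hD₁, y, hy, rfl⟩ | ⟨h, -⟩
    swap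
    · exact absurd ⟨D, hD⟩ h
    rcases hδ' with ⟨D₂, hD₂, z, hz, rfl⟩ | ⟨h, -⟩
    swap
    · exact absurd ⟨_, emb_cm F K hD⟩ h
    obtain ⟨e, he⟩ := cm_even hD₁
    obtain ⟨e', he'⟩ := cm_even hD₂
    let _ : Algebra (maximalRealSubfield F) (maximalRealSubfield K) := (emb F K).toAlgebra
    have : IsScalarTower (maximalRealSubfield F) (maximalRealSubfield K) K :=
      IsScalarTower.of_algebraMap_eq' rfl
    have : FiniteDimensional (maximalRealSubfield F) (maximalRealSubfield K) :=
      Module.Finite.of_restrictScalars_finite ℚ _ _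
    have : FiniteDimensional F K := Module.Finite.of_restrictScalars_finite ℚ _ _
    have hd1 := Module.finrank_mul_finrank (maximalRealSubfield F) (maximalRealSubfield K) K
    have hd2 := Module.finrank_mul_finrank (maximalRealSubfield F) F K
    set g := Module.finrank (maximalRealSubfield F) (maximalRealSubfield K) with hg
    obtain ⟨t, ht⟩ := cm_sq hD₂ (emb_cm F K hD₁)
    have hN : Algebra.norm ℚ (emb F K D₁) = (Algebra.norm ℚ D₁) ^ g := by
      rw [← Algebra.norm_norm (S := maximalRealSubfield F)]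
      have : emb F K D₁ = algebraMap (maximalRealSubfield F) (maximalRealSubfield K) D₁ := rfl
      rw [this, Algebra.norm_algebraMap, map_pow]
    have hne : Algebra.norm ℚ D₁ ≠ 0 := by
      rw [Ne, Algebra.norm_eq_zero_iff]
      rintro rfl
      obtain ⟨φ⟩ : Nonempty (F →+* ℂ) := inferInstance
      have := hD₁.1 φ
      simp at this
    have hne2 : Algebra.norm ℚ D₂ ≠ 0 := by
      rw [Ne, Algebra.norm_eq_zero_iff]
      rintro rfl
      obtain ⟨φ⟩ : Nonempty (K →+* ℂ) := inferInstance
      have := hD₂.1 φ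
      simp at this
    have h3 : Algebra.norm ℚ D₂ * (Algebra.norm ℚ D₁) ^ g = (Algebra.norm ℚ t) ^ 2 := by
      rw [← hN, ← map_mul, ht, map_pow]
    have hy0 : y ≠ 0 := by
      rintro rfl
      apply hne
      have : (0 : ℂ) = ((Algebra.norm ℚ D₁ : ℚ) : ℂ) := by rw [← hy]; simp
      exact_mod_cast this.symm
    have hyg : y ^ g ≠ 0 := pow_ne_zero _ hy0
    -- `z * y ^ g` has rational square, equal to the square of a rational
    have h4 : (z * y ^ g) ^ 2 = ((Algebra.norm ℚ t : ℚ) : ℂ) ^ 2 := by
      rw [mul_pow, hz, ← pow_mul, mul_comm g 2, pow_mul, hy]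
      exact_mod_cast h3
    have h5 : ∃ b : ℚ, z = (b : ℂ) * y ^ g := by
      have h6 : ∃ c : ℚ, z * y ^ g = (c : ℂ) := by
        rcases sq_eq_sq_iff_eq_or_eq_neg.1 h4 with h | h
        · exact ⟨_, h⟩
        · exact ⟨-(Algebra.norm ℚ t), by rw [h]; push_cast; rfl⟩
      obtain ⟨c, hc⟩ := h6
      refine ⟨c / (Algebra.norm ℚ D₁) ^ g, ?_⟩
      have h7 : y ^ g * y ^ g = ((Algebra.norm ℚ D₁ : ℚ) : ℂ) ^ g := by
        rw [← hy, ← pow_mul, ← pow_add]
        congr 1
        ring
      have h8 : ((Algebra.norm ℚ D₁ : ℚ) : ℂ) ^ g ≠ 0 := by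
        rw [← h7]
        exact mul_ne_zero hyg hyg
      push_cast
      rw [div_mul_eq_mul_div, eq_div_iff h8, ← h7, ← mul_assoc, hc]
    obtain ⟨b, hb⟩ := h5
    have hb0 : b ≠ 0 := by
      rintro rfl
      apply hne2
      rw [hb] at hz
      have : (0 : ℂ) = ((Algebra.norm ℚ D₂ : ℚ) : ℂ) := by rw [← hz]; simp
      exact_mod_cast this.symm
    have hdeg : g * e' = e * Module.finrank F K := by
      rw [he'] at hd1
      rw [he] at hd2
      have : 2 * (g * e') = 2 * (e * Module.finrank F K) := by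
        calc 2 * (g * e') = g * (2 * e') := by ring
          _ = 2 * e * Module.finrank F K := by rw [hd1, hd2]
          _ = _ := by ring
      omega
    refine ⟨(b ^ e') ^ n, pow_ne_zero _ (pow_ne_zero _ hb0), ?_⟩
    rw [he, he', Nat.mul_div_cancel_left _ two_pos, Nat.mul_div_cancel_left _ two_pos, hb, mul_pow,
      ← pow_mul y g e', hdeg, mul_pow]
    push_cast
    congr 1
    rw [← pow_mul, ← pow_mul, ← pow_mul]
    congr 1
    ring

end BKA
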