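import Pool.Agent.Helper64.BKA.Stmts2
import Pool.Agent.Helper18.BKA.DEL

/-! # Module TRC: totally complex fields without CM subfields -/

set_option autoImplicit false

open NumberField
open scoped Classical

namespace BKA

section Core

variable {L : Type} [Field L] [NumberField L] [IsGalois ℚ L]

/-- the conjugates of the complex conjugation -/
theorem conj_apply {φ₀ : L →+* ℂ} {c : L ≃ₐ[ℚ] L} (hc : ∀ x, φ₀ (c x) = star (φ₀ x))
    (g : L ≃ₐ[ℚ] L) (x : L) : star (φ₀ (g⁻¹ x)) = φ₀ (g⁻¹ ((g * c * g⁻¹) x)) := by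
  rw [← hc]
  congr 1
  change c (g⁻¹ x) = (g⁻¹ * (g * c * g⁻¹)) x
  have : g⁻¹ * (g * c * g⁻¹) = c * g⁻¹ := by group
  rw [this]
  rfl

theorem emb_conj (φ₀ φ : L →+* ℂ) : ∃ g : L ≃ₐ[ℚ] L, ∀ x, φ x = φ₀ (g⁻¹ x) := by
  obtain ⟨σ, hσ⟩ := NumberField.ComplexEmbedding.exists_comp_symm_eq_of_comp_eq (k := ℚ) φ₀ φ
    (Subsingleton.elim _ _)
  exact ⟨σ, fun x => by rw [← hσ]; rfl⟩

theorem exists_conj (φ₀ : L →+* ℂ) : ∃ c : L ≃ₐ[ℚ] L, (∀ x, φ₀ (c x) = star (φ₀ x)) := by
  obtain ⟨g, hg⟩ := emb_conj φ₀ (NumberField.ComplexEmbedding.conjugate φ₀)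
  exact ⟨g⁻¹, fun x => by rw [← hg]; rfl⟩

/-- the sign with which an automorphism acts on `X` -/
theorem exists_sign {N : Subgroup (L ≃ₐ[ℚ] L)} {X : L} (hX : X ≠ 0)
    (h : ∀ y ∈ N, y X = X ∨ y X = -X) :
    ∃ ε : N →* ℤˣ, ∀ y : N, (y : L ≃ₐ[ℚ] L) X = ((ε y : ℤ) : L) * X := by
  have hne : -X ≠ X := by
    intro h
    have : (2 : L) * X = 0 := by linear_combination -h
    rcases mul_eq_zero.1 this with h | h
    · exact two_ne_zero h
    · exact hX h
  let f : N → ℤˣ := fun y => if (y : L ≃ₐ[ℚ] L) X = X then 1 else -1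
  have hf : ∀ y : N, (y : L ≃ₐ[ℚ] L) X = ((f y : ℤ) : L) * X := by
    intro y
    by_cases hy : (y : L ≃ₐ[ℚ] L) X = X
    · simp [f, hy]
    · rcases h y y.2 with h | h
      · exact absurd h hy
      · simp only [f, hy, if_false]
        rw [h]
        push_cast
        ring
  have hinj : ∀ a b : ℤˣ, ((a : ℤ) : L) * X = ((b : ℤ) : L) * X → a = b := by
    intro a b hab
    have := mul_right_cancel₀ hX hab
    exact Units.ext (by exact_mod_cast this)
  refine ⟨MonoidHom.mk' f ?_, hf⟩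
  intro a b
  apply hinj
  rw [← hf]
  change (a : L ≃ₐ[ℚ] L) ((b : L ≃ₐ[ℚ] L) X) = _
  rw [hf b, map_mul, map_intCast, hf a]
  push_cast
  ring

/-- the index of `A ∩ N` in `N` times the degree of the subfield -/
theorem relIndex_dvd {K₀ K : IntermediateField ℚ L} (N : Subgroup (L ≃ₐ[ℚ] L)) [N.Normal]
    (h0 : K₀ ≤ K) (hfix : ∀ x ∈ K₀, ∀ y ∈ N, y x = x) :
    K.fixingSubgroup.relIndex N * Module.finrank ℚ K₀ ∣ Module.finrank ℚ K := by
  set A := K.fixingSubgroup with hA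
  set M := IntermediateField.fixedField (A ⊔ N) with hM
  have hK0M : K₀ ≤ M := by
    intro x hx
    rw [hM, IntermediateField.mem_fixedField_iff]
    intro f hf
    have hle : A ⊔ N ≤ MulAction.stabilizer (L ≃ₐ[ℚ] L) x := by
      refine sup_le ?_ ?_
      · intro a ha
        rw [MulAction.mem_stabilizer_iff]
        exact (IntermediateField.mem_fixingSubgroup_iff K a).1 ha x (h0 hx)
      · intro a ha
        rw [MulAction.mem_stabilizer_iff]
        exact hfix x hx a ha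
    exact hle hf
  have h1 : Module.finrank ℚ M * Nat.card (A ⊔ N : Subgroup _) = Module.finrank ℚ L := by
    rw [← IntermediateField.finrank_fixedField_eq_card (A ⊔ N)]
    exact Module.finrank_mul_finrank ℚ M L
  have h2 : Module.finrank ℚ K * Nat.card A = Module.finrank ℚ L := by
    rw [hA, IsGalois.card_fixingSubgroup_eq_finrank]
    exact Module.finrank_mul_finrank ℚ K L
  have h3 : Nat.card (A ⊔ N : Subgroup _) = Nat.card A * A.relIndex N := by
    have e1 := Subgroup.relIndex_mul_relIndex (⊥ : Subgroup (L ≃ₐ[ℚ] L)) N (A ⊔ N) bot_le le_sup_right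
    have e2 := Subgroup.relIndex_mul_relIndex (⊥ : Subgroup (L ≃ₐ[ℚ] L)) (N ⊓ A) A bot_le inf_le_right
    have e3 := Subgroup.relIndex_mul_relIndex (⊥ : Subgroup (L ≃ₐ[ℚ] L)) (A ⊓ N) N bot_le inf_le_right
    simp only [Subgroup.relIndex_bot_left, Subgroup.relIndex_sup_right,
      Subgroup.inf_relIndex_right] at e1 e2 e3
    rw [inf_comm A N] at e3
    rw [← e1, ← e3, ← e2]
    ring
  have h4 : Module.finrank ℚ K = Module.finrank ℚ M * A.relIndex N := by
    have hpos : 0 < Nat.card A := Nat.card_pos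
    apply Nat.eq_of_mul_eq_mul_right hpos
    rw [h2, ← h1, h3]
    ring
  have h5 : Module.finrank ℚ K₀ ∣ Module.finrank ℚ M :=
    ⟨_, (IntermediateField.finrank_bot_mul_relfinrank hK0M).symm⟩
  rw [h4, mul_comm]
  exact Nat.mul_dvd_mul_right h5 _

/-- elements with prescribed behaviour -/
theorem exists_X {N B : Subgroup (L ≃ₐ[ℚ] L)} (hN : N.Normal) (ε : N →* ℤˣ)
    (hconj : ∀ (t : L ≃ₐ[ℚ] L) (y : N), ε ⟨t * y * t⁻¹, hN.conj_mem y y.2 t⟩ = ε y)
    (hB : ∀ y : N, (y : L ≃ₐ[ℚ] L) ∈ B → ε y = 1) :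
    ∃ X : L, X ≠ 0 ∧ (∀ h ∈ B, h X = X) ∧
      ∀ y : N, (y : L ≃ₐ[ℚ] L) X = ((ε y : ℤ) : L) * X := by
  let b : (L ≃ₐ[ℚ] L) → ℤ := fun s => ∑ y : N, if s * (y : L ≃ₐ[ℚ] L)⁻¹ ∈ B then (ε y : ℤ) else 0
  have hb1 : ∀ h ∈ B, ∀ s, b (h * s) = b s := by
    intro h hh s
    refine Finset.sum_congr rfl fun y _ => ?_
    have : h * s * (y : L ≃ₐ[ℚ] L)⁻¹ ∈ B ↔ s * (y : L ≃ₐ[ℚ] L)⁻¹ ∈ B := by
      rw [mul_assoc]
      exact B.mul_mem_cancel_left hh
    simp only [this]
  have hb2 : ∀ (y : N) (s), b ((y : L ≃ₐ[ℚ] L) * s) = (ε y : ℤ) * b s := by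
    intro y s
    let n : N := ⟨s⁻¹ * y * s⁻¹⁻¹, hN.conj_mem y y.2 s⁻¹⟩
    have hn : ε n = ε y := hconj s⁻¹ y
    change (∑ x : N, _) = _ * ∑ x : N, _
    rw [← Equiv.sum_comp (Equiv.mulRight n), Finset.mul_sum]
    refine Finset.sum_congr rfl fun x _ => ?_
    have h1 : (y : L ≃ₐ[ℚ] L) * s * (((Equiv.mulRight n) x : N) : L ≃ₐ[ℚ] L)⁻¹ =
        s * (x : L ≃ₐ[ℚ] L)⁻¹ := by
      simp only [Equiv.coe_mulRight, n, Subgroup.coe_mul, inv_inv, mul_inv_rev]
      group
    rw [h1]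
    by_cases h : s * (x : L ≃ₐ[ℚ] L)⁻¹ ∈ B
    · simp only [h, if_true, Equiv.coe_mulRight, map_mul, hn]
      push_cast
      ring
    · simp only [h, if_false, mul_zero]
  have hb3 : 0 < b 1 := by
    apply Finset.sum_pos'
    · intro y _
      by_cases h : (1 : L ≃ₐ[ℚ] L) * (y : L ≃ₐ[ℚ] L)⁻¹ ∈ B
      · simp only [h, if_true]
        rw [one_mul, inv_mem_iff] at h
        rw [hB y h]
        simp
      · simp only [h, if_false, le_refl]
    · refine ⟨1, Finset.mem_univ _, ?_⟩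
      simp
  let X : L → L := fun z => ∑ s : L ≃ₐ[ℚ] L, ((b s : ℤ) : L) * s z
  have hX : ∃ z, X z ≠ 0 := by
    by_contra hcon
    push Not at hcon
    have hli : LinearIndependent L (fun f : L ≃ₐ[ℚ] L => ((f : L →ₐ[ℚ] L)).toLinearMap) :=
      (linearIndependent_toLinearMap ℚ L L).comp _ AlgEquiv.coe_toAlgHom_injective
    have := Fintype.linearIndependent_iff.1 hli (fun s => ((b s : ℤ) : L)) (by
      ext z
      simpa [X] using hcon z) 1
    have h0 : b 1 = 0 := by exact_mod_cast this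
    omega
  obtain ⟨z, hz⟩ := hX
  refine ⟨X z, hz, ?_, ?_⟩
  · intro h hh
    change h (∑ s : L ≃ₐ[ℚ] L, ((b s : ℤ) : L) * s z) = ∑ s : L ≃ₐ[ℚ] L, ((b s : ℤ) : L) * s z
    rw [map_sum, ← Equiv.sum_comp (Equiv.mulLeft h) (fun s => ((b s : ℤ) : L) * s z)]
    refine Finset.sum_congr rfl fun s _ => ?_
    rw [map_mul, map_intCast]
    simp only [Equiv.coe_mulLeft, hb1 h hh]
    rfl
  · intro y
    change (y : L ≃ₐ[ℚ] L) (∑ s : L ≃ₐ[ℚ] L, ((b s : ℤ) : L) * s z) =
      _ * ∑ s : L ≃ₐ[ℚ] L, ((b s : ℤ) : L) * s z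
    have hsq : ((ε y : ℤ) : L) * ((ε y : ℤ) : L) = 1 := by
      rcases Int.units_eq_one_or (ε y) with h | h <;> simp [h]
    rw [map_sum, ← Equiv.sum_comp (Equiv.mulLeft (y : L ≃ₐ[ℚ] L)) (fun s => ((b s : ℤ) : L) * s z),
      Finset.mul_sum]
    refine Finset.sum_congr rfl fun s _ => ?_
    rw [map_mul, map_intCast]
    simp only [Equiv.coe_mulLeft, hb2 y]
    push_cast
    rw [← mul_assoc, ← mul_assoc, hsq, one_mul]
    rfl

end Core

/-- a nonzero complex number with negative square is purely imaginary -/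
theorem star_neg_of_sq {z : ℂ} {r : ℝ} (hr : r < 0) (h : z ^ 2 = (r : ℂ)) : star z = -z := by
  have h1 := congrArg Complex.re h
  have h2 := congrArg Complex.im h
  simp only [pow_two, Complex.mul_re, Complex.mul_im, Complex.ofReal_re, Complex.ofReal_im] at h1 h2
  have h3 : z.re * z.im = 0 := by linarith
  rcases mul_eq_zero.1 h3 with h4 | h4
  · apply Complex.ext
    · simp [h4]
    · simp
  · exfalso
    rw [h4] at h1
    nlinarith [mul_self_nonneg z.re]

theorem mem_conj_iff {G : Type} [Group G] {c x : G} :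
    x ∈ Group.conjugatesOfSet ({c} : Set G) ↔ ∃ g, x = g * c * g⁻¹ := by
  rw [Group.mem_conjugatesOfSet_iff]
  constructor
  · rintro ⟨a, ha, h⟩
    obtain ⟨g, hg⟩ := isConj_iff.1 h
    rw [Set.mem_singleton_iff] at ha
    exact ⟨g, by rw [← hg, ha]⟩
  · rintro ⟨g, rfl⟩
    exact ⟨c, rfl, isConj_iff.2 ⟨g, rfl⟩⟩

theorem trc_core (hG : ST_TRG) (F K L : Type) [Field F] [NumberField F] [Field K] [NumberField K]
    [Field L] [NumberField L] [IsGalois ℚ L] [Algebra F K] (jK : K →+* L)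
    (hF : IsTotallyComplex F) (hno : ¬ ∃ D : maximalRealSubfield F, IsCMElt F D)
    (D : maximalRealSubfield K) (hD : IsCMElt K D)
    (h4 : ¬ 4 ∣ Module.finrank (maximalRealSubfield K) K) : False := by
  set jF : F →+* L := jK.comp (algebraMap F K) with hjF
  obtain ⟨φ₀⟩ : Nonempty (L →+* ℂ) := inferInstance
  obtain ⟨c, hc⟩ := exists_conj φ₀
  set N := Subgroup.normalClosure ({c} : Set (L ≃ₐ[ℚ] L)) with hNdef
  have hN : N.Normal := Subgroup.normalClosure_normal
  -- the embeddings as algebra homomorphisms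
  let aK : K →ₐ[ℚ] L := jK.toRatAlgHom
  let aF : F →ₐ[ℚ] L := jF.toRatAlgHom
  let a0 : maximalRealSubfield K →ₐ[ℚ] L := (jK.comp (maximalRealSubfield K).subtype).toRatAlgHom
  set KL := aK.fieldRange with hKL
  set FL := aF.fieldRange with hFL
  set KL0 := a0.fieldRange with hKL0
  have hmemK : ∀ x, jK x ∈ KL := fun x => ⟨x, rfl⟩
  have hmemF : ∀ x, jF x ∈ FL := fun x => ⟨x, rfl⟩
  have hFK : FL ≤ KL := by
    rintro _ ⟨x, rfl⟩
    exact ⟨algebraMap F K x, rfl⟩
  -- the square root of `D`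
  obtain ⟨x, hx⟩ := hD.2
  have him : ∀ φ : K →+* ℂ, star (φ x) = -φ x := by
    intro φ
    apply star_neg_of_sq (hD.1 φ)
    rw [pow_two, ← map_mul, ← hx]
    exact real_val D φ
  have hx0 : x ≠ 0 := by
    rintro rfl
    obtain ⟨φ⟩ : Nonempty (K →+* ℂ) := inferInstance
    have h1 := hD.1 φ
    rw [hx] at h1
    simp at h1
  have hX0 : jK x ≠ 0 := by
    rw [Ne, map_eq_zero]
    exact hx0
  have hinj : ∀ (g : L ≃ₐ[ℚ] L) (a b : L), φ₀ (g⁻¹ a) = φ₀ (g⁻¹ b) → a = b := by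
    intro g a b h
    exact (g⁻¹).injective (φ₀.injective h)
  have hgX : ∀ g : L ≃ₐ[ℚ] L, (g * c * g⁻¹) (jK x) = -jK x := by
    intro g
    apply hinj g
    rw [← conj_apply hc, map_neg, map_neg]
    exact him ((φ₀.comp (g⁻¹ : L ≃ₐ[ℚ] L).toRingEquiv.toRingHom).comp jK)
  have hNX : ∀ y ∈ N, y (jK x) = jK x ∨ y (jK x) = -jK x := by
    intro y hy
    induction hy using Subgroup.closure_induction with
    | mem y hy =>
      obtain ⟨g, rfl⟩ := mem_conj_iff.1 hy
      exact Or.inr (hgX g)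
    | one => exact Or.inl rfl
    | mul a b _ _ ha hb =>
      have : (a * b) (jK x) = a (b (jK x)) := rfl
      rw [this]
      rcases hb with hb | hb <;> rcases ha with ha | ha <;> rw [hb] <;> simp [ha]
    | inv a _ ha =>
      rcases ha with ha | ha
      · left
        conv_lhs => rw [← ha]
        exact a.symm_apply_apply _
      · right
        have h2 : a (-jK x) = jK x := by rw [map_neg, ha, neg_neg]
        conv_lhs => rw [← h2]
        exact a.symm_apply_apply _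
  obtain ⟨ε, hε⟩ := exists_sign hX0 hNX
  have hcm : ∀ g : L ≃ₐ[ℚ] L, g * c * g⁻¹ ∈ N := fun g =>
    Subgroup.subset_closure (mem_conj_iff.2 ⟨g, rfl⟩)
  have hsgn : ∀ (a b : ℤˣ), ((a : ℤ) : L) * jK x = ((b : ℤ) : L) * jK x → a = b := by
    intro a b hab
    have := mul_right_cancel₀ hX0 hab
    exact Units.ext (by exact_mod_cast this)
  have hεc : ∀ g : L ≃ₐ[ℚ] L, ε ⟨g * c * g⁻¹, hcm g⟩ = -1 := by
    intro g
    apply hsgn
    rw [← hε]
    change (g * c * g⁻¹) (jK x) = _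
    rw [hgX g]
    simp
  have hεA : ∀ y : N, (y : L ≃ₐ[ℚ] L) ∈ KL.fixingSubgroup → ε y = 1 := by
    intro y hy
    apply hsgn
    rw [← hε, (IntermediateField.mem_fixingSubgroup_iff KL _).1 hy _ (hmemK x)]
    simp
  have hconj : ∀ (t : L ≃ₐ[ℚ] L) (y : N), ε ⟨t * y * t⁻¹, hN.conj_mem y y.2 t⟩ = ε y := by
    rintro t ⟨y, hy⟩
    induction hy using Subgroup.closure_induction with
    | mem y hy =>
      obtain ⟨g, rfl⟩ := mem_conj_iff.1 hy
      have h1 : (⟨t * (g * c * g⁻¹) * t⁻¹, hN.conj_mem _ (hcm g) t⟩ : N) =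
          ⟨(t * g) * c * (t * g)⁻¹, hcm (t * g)⟩ := by
        apply Subtype.ext
        group
      exact (congrArg ε h1).trans ((hεc (t * g)).trans (hεc g).symm)
    | one =>
      have h1 : (⟨t * 1 * t⁻¹, hN.conj_mem _ (one_mem N) t⟩ : N) = ⟨1, one_mem N⟩ := by
        apply Subtype.ext
        simp
      exact congrArg ε h1
    | mul a b ha hb iha ihb =>
      have h1 : (⟨t * (a * b) * t⁻¹, hN.conj_mem _ (mul_mem ha hb) t⟩ : N) =
          ⟨t * a * t⁻¹, hN.conj_mem _ ha t⟩ * ⟨t * b * t⁻¹, hN.conj_mem _ hb t⟩ := by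
        apply Subtype.ext
        simp only [Subgroup.coe_mul]
        group
      have h2 : (⟨a * b, mul_mem ha hb⟩ : N) = ⟨a, ha⟩ * ⟨b, hb⟩ := rfl
      refine (congrArg ε h1).trans ?_
      refine Eq.trans ?_ (congrArg ε h2).symm
      rw [map_mul, map_mul]
      exact congrArg₂ _ iha ihb
    | inv a ha iha =>
      have h1 : (⟨t * a⁻¹ * t⁻¹, hN.conj_mem _ (inv_mem ha) t⟩ : N) =
          (⟨t * a * t⁻¹, hN.conj_mem _ ha t⟩)⁻¹ := by
        apply Subtype.ext
        simp only [Subgroup.coe_inv]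
        group
      have h2 : (⟨a⁻¹, inv_mem ha⟩ : N) = (⟨a, ha⟩ : N)⁻¹ := rfl
      refine (congrArg ε h1).trans ?_
      refine Eq.trans ?_ (congrArg ε h2).symm
      rw [map_inv, map_inv]
      exact congrArg _ iha
  have hc2 : c ^ 2 = 1 := by
    ext y
    apply φ₀.injective
    have : (c ^ 2) y = c (c y) := by rw [pow_two]; rfl
    rw [this, hc, hc, star_star]
    rfl
  have hgB : ∀ g : L ≃ₐ[ℚ] L, g * c * g⁻¹ ∉ FL.fixingSubgroup := by
    intro g hg
    let φ : F →+* ℂ := (φ₀.comp (g⁻¹ : L ≃ₐ[ℚ] L).toRingEquiv.toRingHom).comp jF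
    have hφ : NumberField.ComplexEmbedding.IsReal φ := by
      rw [NumberField.ComplexEmbedding.isReal_iff]
      ext y
      change star (φ₀ (g⁻¹ (jF y))) = φ₀ (g⁻¹ (jF y))
      rw [conj_apply hc, (IntermediateField.mem_fixingSubgroup_iff FL _).1 hg _ (hmemF y)]
    have h1 : NumberField.InfinitePlace.IsReal (NumberField.InfinitePlace.mk φ) := ⟨φ, hφ, rfl⟩
    exact NumberField.InfinitePlace.not_isReal_iff_isComplex.2 (hF.isComplex _) h1
  -- the index
  have hfin : ¬ 4 ∣ KL.fixingSubgroup.relIndex N := by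
    intro h
    apply h4
    have h1 : KL.fixingSubgroup.relIndex N * Module.finrank ℚ KL0 ∣ Module.finrank ℚ KL := by
      apply relIndex_dvd
      · rintro _ ⟨y, rfl⟩
        exact ⟨y, rfl⟩
      · rintro _ ⟨y, rfl⟩ t ht
        have hle : N ≤ MulAction.stabilizer (L ≃ₐ[ℚ] L) (a0 y) := by
          rw [hNdef, Subgroup.normalClosure, Subgroup.closure_le]
          intro s hs
          obtain ⟨g, rfl⟩ := mem_conj_iff.1 hs
          change (g * c * g⁻¹) (a0 y) = a0 y
          apply hinj g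
          rw [← conj_apply hc]
          exact y.2 ((φ₀.comp (g⁻¹ : L ≃ₐ[ℚ] L).toRingEquiv.toRingHom).comp jK)
        exact hle ht
    have h2 : Module.finrank ℚ KL0 = Module.finrank ℚ (maximalRealSubfield K) :=
      (AlgEquiv.ofInjectiveField a0).toLinearEquiv.finrank_eq.symm
    have h3 : Module.finrank ℚ KL = Module.finrank ℚ K :=
      (AlgEquiv.ofInjectiveField aK).toLinearEquiv.finrank_eq.symm
    rw [h2, h3, ← Module.finrank_mul_finrank ℚ (maximalRealSubfield K) K, mul_comm] at h1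
    have hpos : 0 < Module.finrank ℚ (maximalRealSubfield K) := Module.finrank_pos
    exact h.trans (Nat.dvd_of_mul_dvd_mul_left hpos h1)
  have hAB : KL.fixingSubgroup ≤ FL.fixingSubgroup := IntermediateField.fixingSubgroup_antitone hFK
  have hεB := hG (L ≃ₐ[ℚ] L) c KL.fixingSubgroup FL.fixingSubgroup ε hAB hc2 hgB hεA hfin
  obtain ⟨X, hX, hXB, hXN⟩ := exists_X hN ε hconj hεB
  have hXF : X ∈ FL := by
    rw [← IsGalois.fixedField_fixingSubgroup FL, IntermediateField.mem_fixedField_iff]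
    exact hXB
  obtain ⟨x', hx'⟩ := hXF
  have hx'' : jF x' = X := hx'
  have hgX' : ∀ g : L ≃ₐ[ℚ] L, (g * c * g⁻¹) X = -X := by
    intro g
    have := hXN ⟨g * c * g⁻¹, hcm g⟩
    rw [hεc g] at this
    simpa using this
  have himF : ∀ φ : F →+* ℂ, star (φ x') = -φ x' := by
    intro φ
    obtain ⟨Φ, hΦ⟩ : ∃ Φ : L →+* ℂ, ∀ y, Φ (jF y) = φ y := by
      let _ : Algebra F L := jF.toAlgebra
      let _ : Algebra F ℂ := φ.toAlgebra
      have : IsScalarTower ℚ F L := inferInstance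
      have : Algebra.IsAlgebraic F L := Algebra.IsAlgebraic.tower_top (K := ℚ) F
      exact ⟨(IsAlgClosed.lift (R := F) (S := L) (M := ℂ)).toRingHom,
        fun y => (IsAlgClosed.lift (R := F) (S := L) (M := ℂ)).commutes y⟩
    obtain ⟨g, hg⟩ := emb_conj φ₀ Φ
    rw [← hΦ, hx'', hg, conj_apply hc, hgX' g, map_neg, map_neg]
  have hx'0 : x' ≠ 0 := by
    rintro rfl
    exact hX (by rw [← hx'', map_zero])
  have hmem : x' ^ 2 ∈ maximalRealSubfield F := by
    intro φ
    rw [map_pow, star_pow, himF φ]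
    ring
  apply hno
  refine ⟨⟨x' ^ 2, hmem⟩, ?_, ⟨x', pow_two x'⟩⟩
  intro φ
  have h1 := himF φ
  have h2 : φ x' ≠ 0 := by
    rw [Ne, map_eq_zero]
    exact hx'0
  have h3 : (φ x').re = 0 := by
    have := congrArg Complex.re h1
    simp at this
    linarith
  have h5 : (φ x').im ≠ 0 := by
    intro h
    exact h2 (Complex.ext h3 h)
  change (φ (x' ^ 2)).re < 0
  rw [map_pow, pow_two, Complex.mul_re, h3]
  have := mul_self_pos.2 h5
  linarith

theorem st_TRC (hG : ST_TRG) : ST_TRC := by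
  intro F K _ _ _ _ _ hF hno ⟨D, hD⟩
  by_contra h4
  have h1 : FiniteDimensional ℚ (IntermediateField.normalClosure ℚ K (AlgebraicClosure K)) :=
    inferInstance
  have h2 : CharZero (IntermediateField.normalClosure ℚ K (AlgebraicClosure K)) :=
    algebraRat.charZero _
  have h3 : NumberField (IntermediateField.normalClosure ℚ K (AlgebraicClosure K)) :=
    { to_charZero := h2, to_finiteDimensional := h1 }
  have h5 : Normal ℚ (AlgebraicClosure K) := by
    have h0 : Algebra.IsAlgebraic ℚ (AlgebraicClosure K) := Algebra.IsAlgebraic.trans ℚ K _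
    rw [normal_iff]
    intro y
    exact ⟨Algebra.IsIntegral.isIntegral y, IsAlgClosed.splits _⟩
  have h6 : Normal ℚ (IntermediateField.normalClosure ℚ K (AlgebraicClosure K)) := by
    have h0 := normalClosure.normal ℚ K (AlgebraicClosure K)
    convert h0
    exact Subsingleton.elim _ _
  have h7 : IsGalois ℚ (IntermediateField.normalClosure ℚ K (AlgebraicClosure K)) := ⟨⟩
  exact trc_core hG F K (IntermediateField.normalClosure ℚ K (AlgebraicClosure K))
    (algebraMap K (IntermediateField.normalClosure ℚ K (AlgebraicClosure K))) hF hno D hD h4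

end BKA
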